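import Pool.Agent.Helper15K9.Core.Poly

/-!
# Deciding whether the core equals the nucleus is NP-hard and coNP-hard

Input: the adjacency matrix of a finite simple graph `G`. Question: is `core(G) = nucleus(G)`?

Proof. Let `φ` be a conjunction of `m ≥ 1` clauses with three literals. The vertices of the graph
are of three kinds, and vertices of different kinds are adjacent. Kind 0: the `3m` literal
occurrences (two of them are adjacent if they are in the same clause or complementary) and one
isolated vertex `w`; the independent sets have at most `m + 1` vertices, with equality only if `φ`
is satisfiable. Kind 1: `m + 1` pairwise nonadjacent vertices in the first reduction, and `m`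
disjoint edges in the second one. Kind 2: a clique with more vertices than the rest of the graph.
Because of the clique every nonempty independent set `I` has `|N(I)| > |I|`, so the nucleus is
empty. In the first reduction the core is empty if and only if `φ` is satisfiable (otherwise it
consists of the vertices of kind 1); in the second one the core is empty if and only if `φ` is
unsatisfiable (otherwise it contains `w`).
-/

set_option autoImplicit false

namespace Pool.Agent.Results.MP_54ee58_lc.CoreNucleusHard

open Pool.Agent.NPC Pool.Agent.Helper15K9.Core

/-- The problem whether `core(G) = nucleus(G)`, for a finite simple graph `G` given by its adjacency
matrix, is NP-hard and coNP-hard under polynomial-time many-one reductions. -/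
theorem result : NPHardP CoreEqNucleus ∧ CoNPHardP CoreEqNucleus := ⟨npHard, coNPHard⟩

end Pool.Agent.Results.MP_54ee58_lc.CoreNucleusHard
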